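import Pool.Agent.Helper6.MONO.Kap

set_option autoImplicit false
noncomputable section
namespace Pool.Agent.Helper6.MONO

theorem kap_mono {M N : ℕ} (hM : 1 ≤ M) (h : M ≤ N) : Kp M ≤ Kp N := by
  unfold Kp
  have hM' : (1 : ℝ) ≤ (M : ℝ) := by exact_mod_cast hM
  have hMN : (M : ℝ) ≤ (N : ℝ) := by exact_mod_cast h
  have hp := Real.pi_pos
  have h1 : Real.pi / N ≤ Real.pi / M := div_le_div_of_nonneg_left hp.le (by linarith) hMN
  have h2 : 0 ≤ Real.pi / N := div_nonneg hp.le (by linarith)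
  have h3 : Real.pi / M ≤ Real.pi := div_le_self hp.le hM'
  have := Real.cos_le_cos_of_nonneg_of_le_pi h2 h3 h1
  linarith

theorem kap_le2 (M : ℕ) : Kp M ≤ 2 := by
  unfold Kp
  have := Real.cos_le_one (Real.pi / M)
  linarith

theorem kap_4 : Kp 4 = Real.sqrt 2 := by
  unfold Kp
  rw [Nat.cast_ofNat, Real.cos_pi_div_four]
  ring

theorem kap_5 : Kp 5 = (1 + Real.sqrt 5) / 2 := by
  unfold Kp
  rw [Nat.cast_ofNat, Real.cos_pi_div_five]
  ring

theorem kap_6 : Kp 6 = Real.sqrt 3 := by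
  unfold Kp
  rw [Nat.cast_ofNat, Real.cos_pi_div_six]
  ring

theorem kap_8 : Kp 8 ≤ 1.84777 := by
  unfold Kp
  rw [Nat.cast_ofNat, Real.cos_pi_div_eight]
  have h2 : Real.sqrt 2 ≤ 1.41422 := by
    rw [Real.sqrt_le_left (by norm_num)]; norm_num
  have h3 : Real.sqrt (2 + Real.sqrt 2) ≤ 1.84777 := by
    rw [Real.sqrt_le_left (by norm_num)]
    nlinarith
  linarith

theorem kap_12 : Kp 12 ≤ 1.93189 := by
  unfold Kp
  have h1 : Real.cos (Real.pi / 6) = 2 * Real.cos (Real.pi / 12) ^ 2 - 1 := by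
    rw [← Real.cos_two_mul]
    congr 1
    ring
  rw [Real.cos_pi_div_six] at h1
  have h3 : Real.sqrt 3 ≤ 1.73206 := by
    rw [Real.sqrt_le_left (by norm_num)]; norm_num
  have h4 : (2 * Real.cos (Real.pi / 12)) ^ 2 ≤ 1.93189 ^ 2 := by
    nlinarith
  have h5 := abs_le_of_sq_le_sq h4 (by norm_num)
  rw [Nat.cast_ofNat]
  exact le_of_abs_le h5

theorem kap_73 : (1.73 : ℝ) ≤ Real.sqrt 3 := by
  apply Real.le_sqrt_of_sq_le
  norm_num

theorem kap_7 : (1.8019 : ℝ) ≤ Kp 7 := by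
  have h6 : Real.sqrt 3 ≤ Kp 7 := by
    rw [← kap_6]; exact kap_mono (by norm_num) (by norm_num)
  have h0 := kap_73
  have h2 := kap_le2 7
  have hf : Kp 7 ^ 3 - Kp 7 ^ 2 - 2 * Kp 7 + 1 = 0 := by
    have e1 : Real.cos (4 * (Real.pi / 7)) = -Real.cos (3 * (Real.pi / 7)) := by
      rw [← Real.cos_pi_sub]
      congr 1
      ring
    have e2 : Real.cos (4 * (Real.pi / 7)) = 2 * (2 * Real.cos (Real.pi / 7) ^ 2 - 1) ^ 2 - 1 := by
      rw [← Real.cos_two_mul, ← Real.cos_two_mul]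
      congr 1
      ring
    have e3 := Real.cos_three_mul (Real.pi / 7)
    have e4 : Kp 7 = 2 * Real.cos (Real.pi / 7) := by
      unfold Kp
      rw [Nat.cast_ofNat]
    have e5 : (Real.cos (Real.pi / 7) + 1) * (8 * Real.cos (Real.pi / 7) ^ 3 -
        4 * Real.cos (Real.pi / 7) ^ 2 - 4 * Real.cos (Real.pi / 7) + 1) = 0 := by
      rw [e2, e3] at e1
      linarith
    have e6 : Real.cos (Real.pi / 7) + 1 ≠ 0 := by
      have : (0 : ℝ) < Real.cos (Real.pi / 7) := by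
        rw [e4] at h6
        linarith
      linarith
    have e7 := (mul_eq_zero.1 e5).resolve_left e6
    rw [e4]
    linarith
  by_contra hcon
  push Not at hcon
  have hk : (1.73 : ℝ) ≤ Kp 7 := h0.trans h6
  nlinarith [mul_nonneg (sub_nonneg.2 hk) (sub_nonneg.2 hcon.le), mul_nonneg (mul_nonneg
    (sub_nonneg.2 hk) (sub_nonneg.2 hk)) (sub_nonneg.2 hcon.le)]

theorem kap_9 : (1.8793 : ℝ) ≤ Kp 9 := by
  have h6 : Real.sqrt 3 ≤ Kp 9 := by
    rw [← kap_6]; exact kap_mono (by norm_num) (by norm_num)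
  have h0 := kap_73
  have hf : Kp 9 ^ 3 - 3 * Kp 9 - 1 = 0 := by
    have e3 := Real.cos_three_mul (Real.pi / 9)
    have e1 : Real.cos (3 * (Real.pi / 9)) = 1 / 2 := by
      rw [← Real.cos_pi_div_three]
      congr 1
      ring
    have e4 : Kp 9 = 2 * Real.cos (Real.pi / 9) := by
      unfold Kp
      rw [Nat.cast_ofNat]
    rw [e4]
    rw [e1] at e3
    linarith
  by_contra hcon
  push Not at hcon
  have hk : (1.73 : ℝ) ≤ Kp 9 := h0.trans h6
  nlinarith [mul_nonneg (sub_nonneg.2 hk) (sub_nonneg.2 hcon.le), mul_nonneg (mul_nonneg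
    (sub_nonneg.2 hk) (sub_nonneg.2 hk)) (sub_nonneg.2 hcon.le)]

theorem kap_13 : (1.9415 : ℝ) ≤ Kp 13 := by
  have h1 := Real.one_sub_sq_div_two_le_cos (x := Real.pi / 13)
  have hp := Real.pi_lt_d4
  have hp0 := Real.pi_pos
  have e4 : Kp 13 = 2 * Real.cos (Real.pi / 13) := by
    unfold Kp
    rw [Nat.cast_ofNat]
  rw [e4]
  nlinarith

theorem kap_cl {C : ClassD} {l h : ℕ} (hk : C.k = I.pos l h) (h0 : 1 ≤ C.lo)
    (hl : (l : ℝ) ≤ Kp C.lo * 268435456)
    (hh : (C.top = true ∧ (536870912 : ℝ) ≤ h) ∨ (C.top = false ∧ Kp C.hi * 268435456 ≤ h)) :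
    ∀ M, InC C M → mem (Kp M) C.k := by
  intro M hM
  rw [hk, mem_pos_iff]
  have h1 := kap_mono h0 hM.1
  refine ⟨by nlinarith, ?_⟩
  rcases hh with ⟨_, h2⟩ | ⟨h3, h2⟩
  · have := kap_le2 M
    nlinarith
  · have h4 : M ≤ C.hi := by
      rcases hM.2 with h5 | h5
      · rw [h3] at h5; exact absurd h5 (by simp)
      · exact h5
    have h6 := kap_mono (h0.trans hM.1) h4
    nlinarith

theorem st_KAP : ST_KAP := by
  have s2l : (1.414212 : ℝ) ≤ Real.sqrt 2 := Real.le_sqrt_of_sq_le (by norm_num)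
  have s2h : Real.sqrt 2 ≤ (1.414218 : ℝ) := by
    rw [Real.sqrt_le_left (by norm_num)]; norm_num
  have s5l : (2.236065 : ℝ) ≤ Real.sqrt 5 := Real.le_sqrt_of_sq_le (by norm_num)
  have s5h : Real.sqrt 5 ≤ (2.236070 : ℝ) := by
    rw [Real.sqrt_le_left (by norm_num)]; norm_num
  have s3l : (1.7320505 : ℝ) ≤ Real.sqrt 3 := Real.le_sqrt_of_sq_le (by norm_num)
  have s3h : Real.sqrt 3 ≤ (1.732052 : ℝ) := by
    rw [Real.sqrt_le_left (by norm_num)]; norm_num
  have b8 := kap_8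
  have b12 := kap_12
  have b7 := kap_7
  have b9 := kap_9
  have b13 := kap_13
  refine ⟨⟨?_, ?_, ?_, ?_, ?_⟩, ⟨?_, ?_, ?_, ?_, ?_⟩, ⟨?_, ?_, ?_, ?_, ?_⟩, ⟨?_, ?_, ?_, ?_, ?_⟩,
    ⟨?_, ?_, ?_, ?_, ?_⟩, ⟨?_, ?_, ?_, ?_, ?_⟩⟩
  · refine kap_cl (l := 379624106) (h := 379626790) rfl (by decide) ?_ (Or.inr ⟨rfl, ?_⟩)
    · show ((379624106 : ℕ) : ℝ) ≤ Kp 4 * 268435456
      rw [kap_4]; push_cast; linarith
    · show Kp 4 * 268435456 ≤ ((379626790 : ℕ) : ℝ)
      rw [kap_4]; push_cast; linarith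
  · intro h; have h' : CT.c4 = CT.c3 := h; cases h'
  · intro _ M hM
    have h1 : 4 ≤ M := hM.1
    have h2 : M ≤ 4 := hM.2.resolve_left (by decide)
    omega
  · intro h; have h' : CT.c4 = CT.c5 := h; cases h'
  · intro h; have h' : CT.c4 = CT.g := h; cases h'
  · refine kap_cl (l := 434336620) (h := 434339305) rfl (by decide) ?_ (Or.inr ⟨rfl, ?_⟩)
    · show ((434336620 : ℕ) : ℝ) ≤ Kp 5 * 268435456
      rw [kap_5]; push_cast; linarith
    · show Kp 5 * 268435456 ≤ ((434339305 : ℕ) : ℝ)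
      rw [kap_5]; push_cast; linarith
  · intro h; have h' : CT.c5 = CT.c3 := h; cases h'
  · intro h; have h' : CT.c5 = CT.c4 := h; cases h'
  · intro _ M hM
    have h1 : 5 ≤ M := hM.1
    have h2 : M ≤ 5 := hM.2.resolve_left (by decide)
    omega
  · intro h; have h' : CT.c5 = CT.g := h; cases h'
  · refine kap_cl (l := 464943631) (h := 464946315) rfl (by decide) ?_ (Or.inr ⟨rfl, ?_⟩)
    · show ((464943631 : ℕ) : ℝ) ≤ Kp 6 * 268435456
      rw [kap_6]; push_cast; linarith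
    · show Kp 6 * 268435456 ≤ ((464946315 : ℕ) : ℝ)
      rw [kap_6]; push_cast; linarith
  · intro h; have h' : CT.g = CT.c3 := h; cases h'
  · intro h; have h' : CT.g = CT.c4 := h; cases h'
  · intro h; have h' : CT.g = CT.c5 := h; cases h'
  · intro _ M hM
    have h1 : 6 ≤ M := hM.1
    exact h1
  · refine kap_cl (l := 483693848) (h := 496015035) rfl (by decide) ?_ (Or.inr ⟨rfl, ?_⟩)
    · show ((483693848 : ℕ) : ℝ) ≤ Kp 7 * 268435456
      push_cast; linarith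
    · show Kp 8 * 268435456 ≤ ((496015035 : ℕ) : ℝ)
      push_cast; linarith
  · intro h; have h' : CT.g = CT.c3 := h; cases h'
  · intro h; have h' : CT.g = CT.c4 := h; cases h'
  · intro h; have h' : CT.g = CT.c5 := h; cases h'
  · intro _ M hM
    have h1 : 7 ≤ M := hM.1
    omega
  · refine kap_cl (l := 504470752) (h := 518590457) rfl (by decide) ?_ (Or.inr ⟨rfl, ?_⟩)
    · show ((504470752 : ℕ) : ℝ) ≤ Kp 9 * 268435456
      push_cast; linarith
    · show Kp 12 * 268435456 ≤ ((518590457 : ℕ) : ℝ)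
      push_cast; linarith
  · intro h; have h' : CT.g = CT.c3 := h; cases h'
  · intro h; have h' : CT.g = CT.c4 := h; cases h'
  · intro h; have h' : CT.g = CT.c5 := h; cases h'
  · intro _ M hM
    have h1 : 9 ≤ M := hM.1
    omega
  · refine kap_cl (l := 521167437) (h := 536870912) rfl (by decide) ?_ (Or.inl ⟨rfl, ?_⟩)
    · show ((521167437 : ℕ) : ℝ) ≤ Kp 13 * 268435456
      push_cast; linarith
    · push_cast; norm_num
  · intro h; have h' : CT.g = CT.c3 := h; cases h'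
  · intro h; have h' : CT.g = CT.c4 := h; cases h'
  · intro h; have h' : CT.g = CT.c5 := h; cases h'
  · intro _ M hM
    have h1 : 13 ≤ M := hM.1
    omega

end Pool.Agent.Helper6.MONO
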